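import Pool.Agent.Lib.MP_92d00e_gt.Conv2

/-!
Surjectivity of the map from quasitoric pairs to equivariant unitary bordism of unitary toric
manifolds of dimension `2n`, in Darby's combinatorial description of the bordism group, for every
`n`; for `2 ≤ n` a single quasitoric pair represents each class.
-/

namespace Pool.Agent.Results.MP_92d00e_gt.Surjectivity

open Pool.Agent.Darby

/-- For `1 ≤ n`, a finitely supported integral function on unordered bases of `ℤ ^ n` is the fixed
point datum of a class of `Z_{2n}^U(Tⁿ)` (combinatorial description) if and only if it is a sum of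
fixed point data of quasitoric pairs, and for `2 ≤ n` one quasitoric pair suffices. -/
theorem result (n : ℕ) (hn : 1 ≤ n) (z : Finset (Fin n → ℤ) →₀ ℤ) :
    IsBordismDatum z ↔ ∃ l : List (QuasitoricPair n), (2 ≤ n → l.length = 1) ∧
      ∀ B, z B = (l.map (fun Q => Q.data B)).sum :=
  full hn z

end Pool.Agent.Results.MP_92d00e_gt.Surjectivity
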